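import Pool.Agent.H484.HH.Stm

/-!
# Project HH: Fourier expansion (S_FE)
-/

set_option autoImplicit false
set_option linter.unusedVariables false

open Finset

namespace Pool.Agent.H484.HH

noncomputable section

theorem map_sum_prod {N : ℕ} [NeZero N] {t : ℕ} (g : Fin t → ZMod N) :
    (ZMod.stdAddChar (∑ i, g i) : ℂ) = ∏ i, (ZMod.stdAddChar (g i) : ℂ) := by
  classical
  have h : ∀ s : Finset (Fin t), (ZMod.stdAddChar (∑ i ∈ s, g i) : ℂ) =
      ∏ i ∈ s, (ZMod.stdAddChar (g i) : ℂ) := by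
    intro s
    induction s using Finset.induction_on with
    | empty => simp
    | insert a s ha ih => rw [Finset.sum_insert ha, Finset.prod_insert ha,
        AddChar.map_add_eq_mul, ih]
  exact h univ

/-- Fourier inversion on `ZMod N`. -/
theorem ft_inv {N : ℕ} [NeZero N] (f : ZMod N → ℝ) (y : ZMod N) :
    ∑ k : ZMod N, ft f k * ZMod.stdAddChar (k * y) = (N : ℂ) * (f y : ℂ) := by
  have h1 : ∀ k : ZMod N, ft f k * ZMod.stdAddChar (k * y) =
      ∑ x : ZMod N, (f x : ℂ) * ZMod.stdAddChar (k * (y - x)) := by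
    intro k
    unfold ft
    rw [Finset.sum_mul]
    refine Finset.sum_congr rfl fun x _ => ?_
    rw [mul_assoc, ← AddChar.map_add_eq_mul]
    have h2 : -(k * x) + k * y = k * (y - x) := by ring
    rw [h2]
  simp_rw [h1]
  rw [Finset.sum_comm]
  have h2 : ∀ x : ZMod N, ∑ k : ZMod N, (f x : ℂ) * (ZMod.stdAddChar (k * (y - x)) : ℂ) =
      if x = y then (N : ℂ) * (f y : ℂ) else 0 := by
    intro x
    rw [← Finset.mul_sum, AddChar.sum_mulShift _ (ZMod.isPrimitive_stdAddChar N)]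
    by_cases h : x = y
    · subst h
      simp [mul_comm]
    · have h3 : y - x ≠ 0 := fun h4 => h (sub_eq_zero.mp h4).symm
      simp [h, h3]
  simp_rw [h2]
  simp

theorem t_FE : S_FE := by
  intro N _ t h f0 f
  have hN : (N : ℂ) ≠ 0 := Nat.cast_ne_zero.mpr (NeZero.ne N)
  have h1 : ∀ k : Fin t → ZMod N, ft f0 (-(∑ i, k i * h i)) * ∏ i, ft (f i) (k i) =
      ∑ m : ZMod N, (f0 m : ℂ) * ∏ i, (ft (f i) (k i) * ZMod.stdAddChar (k i * (h i * m))) := by
    intro k
    rw [ft, Finset.sum_mul]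
    refine Finset.sum_congr rfl fun m _ => ?_
    rw [Finset.prod_mul_distrib, ← map_sum_prod]
    have h2 : -(-(∑ i, k i * h i) * m) = ∑ i, k i * (h i * m) := by
      rw [neg_mul, neg_neg, Finset.sum_mul]
      refine Finset.sum_congr rfl fun i _ => ?_
      ring
    rw [h2]
    ring
  simp_rw [h1]
  rw [Finset.sum_comm]
  have h3 : ∀ m : ZMod N, ∑ k : Fin t → ZMod N, (f0 m : ℂ) *
      ∏ i, (ft (f i) (k i) * ZMod.stdAddChar (k i * (h i * m))) =
      (N : ℂ) ^ t * ((f0 m : ℂ) * ∏ i, (f i (h i * m) : ℂ)) := by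
    intro m
    rw [← Finset.mul_sum]
    have h4 : ∑ k : Fin t → ZMod N, ∏ i, (ft (f i) (k i) *
        (ZMod.stdAddChar (k i * (h i * m)) : ℂ)) =
        ∏ i, ∑ k : ZMod N, (ft (f i) k * (ZMod.stdAddChar (k * (h i * m)) : ℂ)) := by
      rw [Finset.prod_univ_sum, Fintype.piFinset_univ]
    rw [h4]
    simp_rw [ft_inv]
    rw [Finset.prod_mul_distrib, Finset.prod_const, Finset.card_univ, Fintype.card_fin]
    ring
  simp_rw [h3]
  rw [← Finset.mul_sum, ← mul_assoc, one_div, inv_mul_cancel₀ (pow_ne_zero _ hN), one_mul]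
  push_cast
  rfl

end

end Pool.Agent.H484.HH
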